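import Mathlib

set_option autoImplicit false

namespace Pool.Agent.H.MP_af711c_co

open Set

/-- The `i`-th side of the closed polygonal curve through `v 0, v 1, …, v (n-1), v 0`. -/
def side {n : ℕ} (v : Fin n → ℝ × ℝ) (i : Fin n) : Set (ℝ × ℝ) :=
  segment ℝ (v i) (v (finRotate n i))

/-- The curve is simple: distinct vertices, and two different sides meet only if they are
consecutive, and then only in their common vertex. If `strict = true`, moreover no three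
consecutive vertices are collinear. -/
def IsSimple (strict : Bool) {n : ℕ} (v : Fin n → ℝ × ℝ) : Prop :=
  Function.Injective v ∧
  (∀ i j : Fin n, i ≠ j → ∀ z ∈ side v i ∩ side v j,
    (j = finRotate n i ∧ z = v j) ∨ (i = finRotate n j ∧ z = v i)) ∧
  (strict = true → ∀ i : Fin n,
    ¬ Collinear ℝ {v i, v (finRotate n i), v (finRotate n (finRotate n i))})

/-- The boundary curve. -/
def bdry {n : ℕ} (v : Fin n → ℝ × ℝ) : Set (ℝ × ℝ) := ⋃ i, side v i

/-- The closed region bounded by the curve: the curve together with the points whose component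
in the complement of the curve is bounded. -/
def region {n : ℕ} (v : Fin n → ℝ × ℝ) : Set (ℝ × ℝ) :=
  bdry v ∪ {z | z ∉ bdry v ∧ Bornology.IsBounded (connectedComponentIn (bdry v)ᶜ z)}

/-- The visibility graph. -/
def vis {n : ℕ} (v : Fin n → ℝ × ℝ) : SimpleGraph (Fin n) where
  Adj i j := i ≠ j ∧ segment ℝ (v i) (v j) ⊆ region v
  symm := ⟨fun i j h => ⟨h.1.symm, by rw [segment_symm]; exact h.2⟩⟩
  loopless := ⟨fun _ h => h.1 rfl⟩

/-- The number of isomorphism classes of visibility graphs of simple polygons with `n` vertices. -/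
noncomputable def N (strict : Bool) (n : ℕ) : ℕ :=
  {C : Set (SimpleGraph (Fin n)) | ∃ v : Fin n → ℝ × ℝ, IsSimple strict v ∧
    C = {H | Nonempty (H ≃g vis v)}}.ncard

/-- `F` is the function whose graph over the `i`-th interval is the `i`-th segment. -/
def Ch (P : ℕ → ℝ × ℝ) (s : ℕ) (F : ℝ → ℝ) : Prop :=
  Continuous F ∧ (∀ i < s, (P i).1 < (P (i + 1)).1) ∧ ∀ i < s, ∀ z : ℝ × ℝ,
    z ∈ segment ℝ (P i) (P (i + 1)) ↔ ((P i).1 ≤ z.1 ∧ z.1 ≤ (P (i + 1)).1 ∧ z.2 = F z.1)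

theorem mono_of {P : ℕ → ℝ × ℝ} {s : ℕ} (h : ∀ i < s, (P i).1 < (P (i + 1)).1) {i j : ℕ}
    (hij : i ≤ j) (hj : j ≤ s) : (P i).1 ≤ (P j).1 := by
  induction j, hij using Nat.le_induction with
  | base => exact le_rfl
  | succ j _ ih => exact (ih (by omega)).trans (h j (by omega)).le

theorem smono_of {P : ℕ → ℝ × ℝ} {s : ℕ} (h : ∀ i < s, (P i).1 < (P (i + 1)).1) {i j : ℕ}
    (hij : i < j) (hj : j ≤ s) : (P i).1 < (P j).1 :=
  (h i (by omega)).trans_le (mono_of h hij hj)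

theorem seg_iff (A B z : ℝ × ℝ) (h : A.1 < B.1) : z ∈ segment ℝ A B ↔
    (A.1 ≤ z.1 ∧ z.1 ≤ B.1 ∧ z.2 = A.2 + (B.2 - A.2) / (B.1 - A.1) * (z.1 - A.1)) := by
  have hp : 0 < B.1 - A.1 := by linarith
  constructor
  · rintro ⟨a, b, ha, hb, hab, rfl⟩
    obtain rfl : a = 1 - b := by linarith
    simp only [Prod.fst_add, Prod.snd_add, Prod.smul_fst, Prod.smul_snd, smul_eq_mul]
    refine ⟨by nlinarith, by nlinarith, ?_⟩
    field_simp
    ring
  · rintro ⟨h1, h2, h3⟩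
    refine ⟨1 - (z.1 - A.1) / (B.1 - A.1), (z.1 - A.1) / (B.1 - A.1), ?_, ?_, by ring, ?_⟩
    · rw [sub_nonneg, div_le_one hp]; linarith
    · exact div_nonneg (by linarith) hp.le
    · ext
      · simp only [Prod.fst_add, Prod.smul_fst, smul_eq_mul]; field_simp; ring
      · simp only [Prod.snd_add, Prod.smul_snd, smul_eq_mul]; rw [h3]; field_simp; ring

theorem exists_ch (P : ℕ → ℝ × ℝ) (s : ℕ) (h : ∀ i < s, (P i).1 < (P (i + 1)).1) :
    ∃ F, Ch P s F := by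
  refine ⟨fun x => (P 0).2 + ∑ j ∈ Finset.range s, ((P (j + 1)).2 - (P j).2) /
    ((P (j + 1)).1 - (P j).1) * (max (P j).1 (min x (P (j + 1)).1) - (P j).1), by fun_prop, h, ?_⟩
  intro i hi z
  rw [seg_iff _ _ _ (h i hi)]
  refine and_congr_right fun h1 => and_congr_right fun h2 => ?_
  have e : Finset.range s = Finset.range (i + 1 + (s - i - 1)) := by congr 1; omega
  beta_reduce
  rw [e, Finset.sum_range_add, Finset.sum_range_succ]
  have e1 : ∑ j ∈ Finset.range i, ((P (j + 1)).2 - (P j).2) /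
      ((P (j + 1)).1 - (P j).1) * (max (P j).1 (min z.1 (P (j + 1)).1) - (P j).1) =
      (P i).2 - (P 0).2 := by
    rw [← Finset.sum_range_sub (fun j => (P j).2)]
    refine Finset.sum_congr rfl fun j hj => ?_
    have hj' := Finset.mem_range.1 hj
    have a1 : (P (j + 1)).1 ≤ z.1 := (mono_of h (by omega) (by omega)).trans h1
    have a2 := h j (by omega)
    rw [min_eq_right a1, max_eq_right a2.le]
    have : (P (j + 1)).1 - (P j).1 ≠ 0 := by linarith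
    field_simp
  have e2 : ∑ j ∈ Finset.range (s - i - 1), ((P (i + 1 + j + 1)).2 - (P (i + 1 + j)).2) /
      ((P (i + 1 + j + 1)).1 - (P (i + 1 + j)).1) *
      (max (P (i + 1 + j)).1 (min z.1 (P (i + 1 + j + 1)).1) - (P (i + 1 + j)).1) = 0 := by
    refine Finset.sum_eq_zero fun j hj => ?_
    have hj' := Finset.mem_range.1 hj
    have a1 : z.1 ≤ (P (i + 1 + j)).1 := h2.trans (mono_of h (by omega) (by omega))
    rw [max_eq_left ((min_le_left _ _).trans a1)]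
    simp
  rw [e1, e2, min_eq_left h2, max_eq_right h1]
  constructor <;> intro h3 <;> linarith

theorem Ch.loc {P : ℕ → ℝ × ℝ} {s : ℕ} {F : ℝ → ℝ} (h : Ch P s F) (hs : 0 < s) {x : ℝ}
    (h1 : (P 0).1 ≤ x) (h2 : x ≤ (P s).1) :
    ∃ i < s, (P i).1 ≤ x ∧ x ≤ (P (i + 1)).1 ∧ (x, F x) ∈ segment ℝ (P i) (P (i + 1)) := by
  classical
  have hex : ∃ i, i < s ∧ x ≤ (P (i + 1)).1 := ⟨s - 1, by omega, by
    rw [show s - 1 + 1 = s by omega]; exact h2⟩
  obtain ⟨a, b⟩ := Nat.find_spec hex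
  have c : (P (Nat.find hex)).1 ≤ x := by
    rcases Nat.eq_zero_or_pos (Nat.find hex) with h0 | h0
    · rw [h0]; exact h1
    · have := Nat.find_min hex (m := Nat.find hex - 1) (by omega)
      rw [show Nat.find hex - 1 + 1 = Nat.find hex by omega] at this
      push Not at this
      exact (this (by omega)).le
  exact ⟨_, a, c, b, (h.2.2 _ a _).2 ⟨c, b, rfl⟩⟩

theorem Ch.vert {P : ℕ → ℝ × ℝ} {s : ℕ} {F : ℝ → ℝ} (h : Ch P s F) (hs : 0 < s) {i : ℕ}
    (hi : i ≤ s) : (P i).2 = F (P i).1 := by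
  rcases Nat.lt_or_ge i s with h1 | h1
  · exact ((h.2.2 i h1 _).1 (left_mem_segment _ _ _)).2.2
  · have := ((h.2.2 (s - 1) (by omega) _).1 (right_mem_segment _ _ _)).2.2
    rw [show s - 1 + 1 = i by omega] at this
    exact this

theorem Ch.meet {P : ℕ → ℝ × ℝ} {s : ℕ} {F : ℝ → ℝ} (h : Ch P s F) {i j : ℕ} (hij : i < j)
    (hj : j < s) {z : ℝ × ℝ} (h1 : z ∈ segment ℝ (P i) (P (i + 1)))
    (h2 : z ∈ segment ℝ (P j) (P (j + 1))) : j = i + 1 ∧ z = P j := by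
  obtain ⟨_, a2, a3⟩ := (h.2.2 i (by omega) z).1 h1
  obtain ⟨b1, _, b3⟩ := (h.2.2 j hj z).1 h2
  have e : j = i + 1 := by
    by_contra hne
    have := smono_of h.2.1 (i := i + 1) (j := j) (by omega) (by omega)
    linarith
  subst e
  have e1 : z.1 = (P (i + 1)).1 := le_antisymm a2 b1
  refine ⟨rfl, Prod.ext e1 ?_⟩
  rw [a3, e1]; exact (h.vert (by omega) (by omega)).symm

theorem Ch.first {P : ℕ → ℝ × ℝ} {s : ℕ} {F : ℝ → ℝ} (h : Ch P s F) {i : ℕ} (hi : i < s)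
    {z : ℝ × ℝ} (h1 : z ∈ segment ℝ (P i) (P (i + 1))) (h2 : z.1 ≤ (P 0).1) :
    i = 0 ∧ z = P 0 := by
  obtain ⟨a1, _, a3⟩ := (h.2.2 i hi z).1 h1
  have e : i = 0 := by
    by_contra hne
    have := smono_of h.2.1 (i := 0) (j := i) (by omega) (by omega)
    linarith
  subst e
  have e1 : z.1 = (P 0).1 := le_antisymm h2 a1
  refine ⟨rfl, Prod.ext e1 ?_⟩
  rw [a3, e1]; exact (h.vert (by omega) (by omega)).symm

theorem Ch.last {P : ℕ → ℝ × ℝ} {s : ℕ} {F : ℝ → ℝ} (h : Ch P s F) {i : ℕ} (hi : i < s)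
    {z : ℝ × ℝ} (h1 : z ∈ segment ℝ (P i) (P (i + 1))) (h2 : (P s).1 ≤ z.1) :
    i + 1 = s ∧ z = P s := by
  obtain ⟨_, a2, a3⟩ := (h.2.2 i hi z).1 h1
  have e : i + 1 = s := by
    by_contra hne
    have := smono_of h.2.1 (i := i + 1) (j := s) (by omega) (by omega)
    linarith
  subst e
  have e1 : z.1 = (P (i + 1)).1 := le_antisymm a2 h2
  refine ⟨rfl, Prod.ext e1 ?_⟩
  rw [a3, e1]; exact (h.vert (by omega) (by omega)).symm

theorem Ch.rng {P : ℕ → ℝ × ℝ} {s : ℕ} {F : ℝ → ℝ} (h : Ch P s F) {i : ℕ} (hi : i < s)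
    {z : ℝ × ℝ} (h1 : z ∈ segment ℝ (P i) (P (i + 1))) :
    (P 0).1 ≤ z.1 ∧ z.1 ≤ (P s).1 ∧ z.2 = F z.1 := by
  obtain ⟨a1, a2, a3⟩ := (h.2.2 i hi z).1 h1
  exact ⟨(mono_of h.2.1 (by omega) (by omega)).trans a1,
    a2.trans (mono_of h.2.1 (by omega) (by omega)), a3⟩

theorem reg_in {D : Set (ℝ × ℝ)} {a b : ℝ} {F G : ℝ → ℝ} (hF : Continuous F) (hG : Continuous G)
    (ha : F a = G a) (hb : F b = G b)
    (h1 : ∀ x, a ≤ x → x ≤ b → (x, F x) ∈ D) (h2 : ∀ x, a ≤ x → x ≤ b → (x, G x) ∈ D)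
    {z : ℝ × ℝ} (z1 : a ≤ z.1) (z2 : z.1 ≤ b) (z3 : F z.1 ≤ z.2) (z4 : z.2 ≤ G z.1)
    (hz : z ∉ D) : Bornology.IsBounded (connectedComponentIn Dᶜ z) := by
  let R : Set (ℝ × ℝ) := {w | (a ≤ w.1 ∧ w.1 ≤ b) ∧ F w.1 ≤ w.2 ∧ w.2 ≤ G w.1}
  let U : Set (ℝ × ℝ) := {w | (a < w.1 ∧ w.1 < b) ∧ F w.1 < w.2 ∧ w.2 < G w.1}
  have hR : IsClosed R := ((isClosed_le continuous_const continuous_fst).inter
    (isClosed_le continuous_fst continuous_const)).inter
    ((isClosed_le (hF.comp continuous_fst) continuous_snd).inter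
      (isClosed_le continuous_snd (hG.comp continuous_fst)))
  have hU : IsOpen U := ((isOpen_lt continuous_const continuous_fst).inter
    (isOpen_lt continuous_fst continuous_const)).inter
    ((isOpen_lt (hF.comp continuous_fst) continuous_snd).inter
      (isOpen_lt continuous_snd (hG.comp continuous_fst)))
  have hUR : U ⊆ R := fun w h => ⟨⟨h.1.1.le, h.1.2.le⟩, h.2.1.le, h.2.2.le⟩
  have key : ∀ w ∈ R, w ∉ D → w ∈ U := by
    rintro ⟨x, y⟩ ⟨⟨w1, w2⟩, w3, w4⟩ hw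
    simp only at w1 w2 w3 w4
    have n1 : y ≠ F x := fun e => hw (e ▸ h1 x w1 w2)
    have n2 : y ≠ G x := fun e => hw (e ▸ h2 x w1 w2)
    have l1 : F x < y := lt_of_le_of_ne w3 n1.symm
    have l2 : y < G x := lt_of_le_of_ne w4 n2
    refine ⟨⟨lt_of_le_of_ne w1 ?_, lt_of_le_of_ne w2 ?_⟩, l1, l2⟩
    · rintro rfl; linarith
    · rintro rfl; linarith
  have hs : connectedComponentIn Dᶜ z ⊆ U := by
    refine isPreconnected_connectedComponentIn.subset_left_of_subset_union hU hR.isOpen_compl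
      (disjoint_compl_right.mono_left hUR) (fun w hw => ?_)
      ⟨z, mem_connectedComponentIn hz, key z ⟨⟨z1, z2⟩, z3, z4⟩ hz⟩
    by_cases hw' : w ∈ R
    · exact Or.inl (key w hw' (connectedComponentIn_subset _ _ hw))
    · exact Or.inr hw'
  obtain ⟨c, hc⟩ := (isCompact_Icc (a := a) (b := b)).bddBelow_image hF.continuousOn
  obtain ⟨d, hd⟩ := (isCompact_Icc (a := a) (b := b)).bddAbove_image hG.continuousOn
  refine ((Metric.isBounded_Icc a b).prod (Metric.isBounded_Icc c d)).subset fun w hw => ?_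
  obtain ⟨⟨w1, w2⟩, w3, w4⟩ := hUR (hs hw)
  exact ⟨⟨w1, w2⟩, (hc ⟨w.1, ⟨w1, w2⟩, rfl⟩).trans w3, w4.trans (hd ⟨w.1, ⟨w1, w2⟩, rfl⟩)⟩

theorem reg_out {D : Set (ℝ × ℝ)} {z : ℝ × ℝ} (h : ∀ y, z.2 ≤ y → (z.1, y) ∉ D) :
    ¬ Bornology.IsBounded (connectedComponentIn Dᶜ z) := by
  intro hb
  have hp : IsPreconnected ({z.1} ×ˢ Ici z.2 : Set (ℝ × ℝ)) :=
    isPreconnected_singleton.prod isPreconnected_Ici
  have hs := hp.subset_connectedComponentIn (x := z) (F := Dᶜ) ⟨rfl, le_refl z.2⟩ (by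
    rintro ⟨x, y⟩ ⟨h1, h2⟩
    obtain rfl : x = z.1 := h1
    exact h y h2)
  obtain ⟨C, hC⟩ := (hb.subset hs).exists_norm_le
  have := hC (z.1, max z.2 (C + 1)) ⟨rfl, le_max_left z.2 (C + 1)⟩
  have h2 := norm_snd_le (z.1, max z.2 (C + 1))
  have h3 := le_abs_self (max z.2 (C + 1))
  have h4 := le_max_right z.2 (C + 1)
  simp only [Real.norm_eq_abs] at h2
  linarith

theorem ncol {A B C : ℝ × ℝ} (h : (A.1 - B.1) * (C.2 - B.2) ≠ (A.2 - B.2) * (C.1 - B.1)) :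
    ¬ Collinear ℝ {A, B, C} := by
  rw [collinear_iff_of_mem (p₀ := B) (by simp)]
  rintro ⟨w, hw⟩
  obtain ⟨r, hr⟩ := hw A (by simp)
  obtain ⟨r', hr'⟩ := hw C (by simp)
  apply h
  rw [hr, hr']
  simp only [vadd_eq_add, Prod.fst_add, Prod.snd_add, Prod.smul_fst, Prod.smul_snd, smul_eq_mul]
  ring

end Pool.Agent.H.MP_af711c_co
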