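import Pool.Agent.H.MP_af711c_co.A

set_option autoImplicit false

namespace Pool.Agent.H.MP_af711c_co

open Set

theorem rot_val {n : ℕ} (i : Fin n) :
    (finRotate n i).val = if i.val + 1 < n then i.val + 1 else 0 := by
  cases n with
  | zero => exact i.elim0
  | succ n =>
    rw [coe_finRotate]
    by_cases h : i = Fin.last n
    · subst h; simp
    · have := Fin.val_lt_last h
      rw [if_neg h, if_pos (by omega)]

structure MP (p q : ℕ → ℝ × ℝ) (s t : ℕ) (F G : ℝ → ℝ) : Prop where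
  cF : Ch p s F
  cG : Ch q t G
  hs : 2 ≤ s
  ht : 2 ≤ t
  e0 : p 0 = q 0
  e1 : p s = q t
  lt : ∀ x, (p 0).1 < x → x < (p s).1 → F x < G x
  ncp : ∀ i, i + 2 ≤ s → ¬ Collinear ℝ {p i, p (i + 1), p (i + 2)}
  ncq : ∀ i, i + 2 ≤ t → ¬ Collinear ℝ {q (i + 2), q (i + 1), q i}
  ncl : ¬ Collinear ℝ {q 1, p 0, p 1}
  ncr : ¬ Collinear ℝ {p (s - 1), p s, q (t - 1)}

def W (p q : ℕ → ℝ × ℝ) (s t : ℕ) (i : ℕ) : ℝ × ℝ := if i ≤ s then p i else q (s + t - i)

def poly (p q : ℕ → ℝ × ℝ) (s t n : ℕ) : Fin n → ℝ × ℝ := fun i => W p q s t i.val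

variable {p q : ℕ → ℝ × ℝ} {s t n : ℕ} {F G : ℝ → ℝ}

theorem W_lo {i : ℕ} (h : i ≤ s) : W p q s t i = p i := if_pos h

theorem MP.W_hi (h : MP p q s t F G) {i : ℕ} (hi : s ≤ i) : W p q s t i = q (s + t - i) := by
  rcases hi.eq_or_lt with rfl | h1
  · rw [W_lo le_rfl, h.e1]; congr 1; omega
  · exact if_neg (by omega)

theorem MP.rot (h : MP p q s t F G) (hn : n = s + t) (i : Fin n) :
    poly p q s t n (finRotate n i) = W p q s t (i.val + 1) := by
  unfold poly
  rw [rot_val]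
  split_ifs with h1
  · rfl
  · have := i.2
    rw [W_lo (Nat.zero_le _), h.W_hi (by omega), h.e0]; congr 1; omega

theorem MP.side_lo (h : MP p q s t F G) (hn : n = s + t) (i : Fin n) (hi : i.val < s) :
    side (poly p q s t n) i = segment ℝ (p i) (p (i + 1)) := by
  unfold side
  rw [h.rot hn, W_lo (by omega)]
  unfold poly
  rw [W_lo hi.le]

theorem MP.side_hi (h : MP p q s t F G) (hn : n = s + t) (i : Fin n) (hi : s ≤ i.val) :
    side (poly p q s t n) i = segment ℝ (q (n - i - 1)) (q (n - i - 1 + 1)) := by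
  unfold side
  rw [h.rot hn, h.W_hi (by omega), segment_symm]
  unfold poly
  have := i.2
  rw [h.W_hi hi]
  congr 2 <;> omega

theorem MP.cross (h : MP p q s t F G) {i j : ℕ} (hi : i < s) (hj : j < t) {z : ℝ × ℝ}
    (h1 : z ∈ segment ℝ (p i) (p (i + 1))) (h2 : z ∈ segment ℝ (q j) (q (j + 1))) :
    (i = 0 ∧ j = 0 ∧ z = p 0) ∨ (i + 1 = s ∧ j + 1 = t ∧ z = p s) := by
  obtain ⟨a1, a2, a3⟩ := h.cF.rng hi h1
  obtain ⟨_, _, b3⟩ := h.cG.rng hj h2
  by_cases c1 : z.1 ≤ (p 0).1
  · obtain ⟨x1, x2⟩ := h.cF.first hi h1 c1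
    exact Or.inl ⟨x1, (h.cG.first hj h2 (h.e0 ▸ c1)).1, x2⟩
  by_cases c2 : (p s).1 ≤ z.1
  · obtain ⟨x1, x2⟩ := h.cF.last hi h1 c2
    exact Or.inr ⟨x1, (h.cG.last hj h2 (h.e1 ▸ c2)).1, x2⟩
  have := h.lt z.1 (by linarith) (by linarith)
  linarith

theorem MP.sides (h : MP p q s t F G) (hn : n = s + t) (i j : Fin n) (hij : i.val < j.val)
    (z : ℝ × ℝ) (h1 : z ∈ side (poly p q s t n) i) (h2 : z ∈ side (poly p q s t n) j) :
    (j = finRotate n i ∧ z = poly p q s t n j) ∨ (i = finRotate n j ∧ z = poly p q s t n i) := by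
  have hj := j.2
  have hs := h.hs
  have ht := h.ht
  by_cases c1 : j.val < s
  · rw [h.side_lo hn i (by omega)] at h1
    rw [h.side_lo hn j c1] at h2
    obtain ⟨a, b⟩ := h.cF.meet hij c1 h1 h2
    refine Or.inl ⟨Fin.ext (by rw [rot_val, if_pos (by omega)]; exact a), ?_⟩
    rw [b]; exact (W_lo c1.le).symm
  rw [h.side_hi hn j (by omega)] at h2
  by_cases c2 : i.val < s
  · rw [h.side_lo hn i c2] at h1
    rcases h.cross c2 (by omega) h1 h2 with ⟨a, b, c⟩ | ⟨a, b, c⟩
    · refine Or.inr ⟨Fin.ext (by rw [rot_val, if_neg (by omega)]; exact a), ?_⟩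
      rw [c]; unfold poly; rw [a]; exact (W_lo (Nat.zero_le _)).symm
    · refine Or.inl ⟨Fin.ext (by rw [rot_val, if_pos (by omega)]; omega), ?_⟩
      rw [c]; unfold poly; rw [show j.val = s by omega]; exact (W_lo le_rfl).symm
  · rw [h.side_hi hn i (by omega)] at h1
    obtain ⟨a, b⟩ := h.cG.meet (i := n - j - 1) (j := n - i - 1) (by omega) (by omega) h2 h1
    refine Or.inl ⟨Fin.ext (by rw [rot_val, if_pos (by omega)]; omega), ?_⟩
    rw [b]; unfold poly; rw [h.W_hi (by omega)]; congr 1; omega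

theorem MP.simple (h : MP p q s t F G) (hn : n = s + t) (b : Bool) :
    IsSimple b (poly p q s t n) := by
  have hs := h.hs
  have ht := h.ht
  have key : ∀ i j : Fin n, i ≠ j → ∀ z ∈ side (poly p q s t n) i ∩ side (poly p q s t n) j,
      (j = finRotate n i ∧ z = poly p q s t n j) ∨ (i = finRotate n j ∧ z = poly p q s t n i) := by
    intro i j hij z hz
    rcases lt_or_gt_of_ne (fun e => hij (Fin.ext e)) with c | c
    · exact h.sides hn i j c z hz.1 hz.2
    · exact (h.sides hn j i c z hz.2 hz.1).symm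
  have nc : ∀ i : Fin n, ¬ Collinear ℝ {poly p q s t n i, poly p q s t n (finRotate n i),
      poly p q s t n (finRotate n (finRotate n i))} := by
    intro i
    have hi := i.2
    rw [h.rot hn, h.rot hn, rot_val]
    unfold poly
    split_ifs with c
    · by_cases c1 : i.val + 2 ≤ s
      · rw [W_lo (by omega), W_lo (by omega), W_lo (by omega)]
        exact h.ncp _ c1
      by_cases c2 : i.val + 1 = s
      · rw [W_lo (by omega), W_lo (by omega), h.W_hi (by omega), c2,
          show i.val = s - 1 by omega, show s + t - (s + 1) = t - 1 by omega]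
        exact h.ncr
      · rw [h.W_hi (by omega), h.W_hi (by omega), h.W_hi (by omega),
          show s + t - i.val = s + t - (i.val + 1 + 1) + 2 by omega,
          show s + t - (i.val + 1) = s + t - (i.val + 1 + 1) + 1 by omega]
        exact h.ncq _ (by omega)
    · rw [h.W_hi (by omega), h.W_hi (by omega), W_lo (by omega),
        show s + t - i.val = 1 by omega, show s + t - (i.val + 1) = 0 by omega, ← h.e0]
      exact h.ncl
  refine ⟨fun i j e => ?_, key, fun _ => nc⟩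
  by_contra hij
  rcases key i j hij (poly p q s t n i) ⟨left_mem_segment _ _ _, e ▸ left_mem_segment _ _ _⟩
    with ⟨a, _⟩ | ⟨a, _⟩
  · apply nc i
    rw [← a, e, Set.insert_eq_of_mem (by simp)]
    exact collinear_pair _ _ _
  · apply nc j
    rw [← a, e, Set.insert_eq_of_mem (by simp)]
    exact collinear_pair _ _ _

theorem MP.inside (h : MP p q s t F G) (hn : n = s + t) {z : ℝ × ℝ} (z1 : (p 0).1 ≤ z.1)
    (z2 : z.1 ≤ (p s).1) (z3 : F z.1 ≤ z.2) (z4 : z.2 ≤ G z.1) :
    z ∈ region (poly p q s t n) := by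
  have hs := h.hs
  have ht := h.ht
  by_cases hz : z ∈ bdry (poly p q s t n)
  · exact Or.inl hz
  refine Or.inr ⟨hz, reg_in h.cF.1 h.cG.1 (a := (p 0).1) (b := (p s).1) ?_ ?_ ?_ ?_ z1 z2 z3 z4 hz⟩
  · rw [← h.cF.vert (by omega) (by omega), h.e0, ← h.cG.vert (by omega) (by omega)]
  · rw [← h.cF.vert (by omega) (by omega), h.e1, ← h.cG.vert (by omega) (by omega)]
  · intro x x1 x2
    obtain ⟨i, hi, _, _, a⟩ := h.cF.loc (by omega) x1 x2
    refine mem_iUnion.2 ⟨⟨i, by omega⟩, ?_⟩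
    rw [h.side_lo hn _ hi]; exact a
  · intro x x1 x2
    obtain ⟨i, hi, _, _, a⟩ := h.cG.loc (by omega) (h.e0 ▸ x1) (h.e1 ▸ x2)
    refine mem_iUnion.2 ⟨⟨n - i - 1, by omega⟩, ?_⟩
    rw [h.side_hi hn _ (by simp only; omega)]
    simp only
    rw [show n - (n - i - 1) - 1 = i by omega]; exact a

theorem MP.outside (h : MP p q s t F G) (hn : n = s + t) {z : ℝ × ℝ} (z1 : (p 0).1 < z.1)
    (z2 : z.1 < (p s).1) (z4 : G z.1 < z.2) : z ∉ region (poly p q s t n) := by
  have key : ∀ y, z.2 ≤ y → (z.1, y) ∉ bdry (poly p q s t n) := by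
    intro y hy hm
    obtain ⟨i, hi⟩ := mem_iUnion.1 hm
    have := i.2
    have l := h.lt _ z1 z2
    by_cases c : i.val < s
    · rw [h.side_lo hn _ c] at hi
      have := (h.cF.rng c hi).2.2
      simp only at this
      linarith
    · rw [h.side_hi hn _ (by omega)] at hi
      have := (h.cG.rng (by omega) hi).2.2
      simp only at this
      linarith
  rintro (a | ⟨_, a⟩)
  · exact key z.2 le_rfl a
  · exact reg_out key a

end Pool.Agent.H.MP_af711c_co
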