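import Pool.Agent.H.MP_af711c_co.B

set_option autoImplicit false

namespace Pool.Agent.H.MP_af711c_co

open Set

noncomputable def xx (k i : ℕ) : ℝ := (i : ℝ) / k
noncomputable def al (k : ℕ) (a : ℕ → ℕ) (i : ℕ) : ℝ := 1 / (xx k i + 2 * a i)
noncomputable def be (k : ℕ) (b : ℕ → ℕ) (i : ℕ) : ℝ := 1 / (2 * b i - xx k (i + 1))
noncomputable def tip (k : ℕ) (a b : ℕ → ℕ) (i : ℕ) : ℝ × ℝ :=
  (xx k i + (xx k (i + 1) - xx k i) * be k b i / (al k a i + be k b i),
    1 + (xx k (i + 1) - xx k i) * al k a i * be k b i / (al k a i + be k b i))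

noncomputable def pp (m s j : ℕ) : ℝ × ℝ :=
  ((j : ℝ) - (2 * m + 2), if j % 2 = 1 ∧ j < s then -1 else 0)

noncomputable def qq (m s k : ℕ) (a b : ℕ → ℕ) (j : ℕ) : ℝ × ℝ :=
  if j = 0 then (-(2 * m + 2), 0) else if j = 2 * k + 2 then ((s : ℝ) - (2 * m + 2), 0)
  else if j % 2 = 1 then (xx k (j / 2), 1) else tip k a b (j / 2 - 1)

structure OK (m s k : ℕ) (a b : ℕ → ℕ) : Prop where
  hk : 0 < k
  hs : 4 * m + 4 ≤ s
  ha : ∀ i, 1 ≤ a i ∧ a i ≤ m
  hb : ∀ i, 1 ≤ b i ∧ b i ≤ m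

variable {m s k : ℕ} {a b : ℕ → ℕ}

theorem xx_mono {i j : ℕ} (h : i ≤ j) : xx k i ≤ xx k j :=
  div_le_div_of_nonneg_right (by exact_mod_cast h) (Nat.cast_nonneg _)

theorem xx0 : xx k 0 = 0 := by simp [xx]

theorem xxk (hk : 0 < k) : xx k k = 1 := div_self (by positivity)

theorem q_odd {i : ℕ} : qq m s k a b (2 * i + 1) = (xx k i, 1) := by
  unfold qq
  rw [if_neg (by omega), if_neg (by omega), if_pos (by omega), show (2 * i + 1) / 2 = i by omega]

theorem q_tip {i : ℕ} (hi : i < k) : qq m s k a b (2 * i + 2) = tip k a b i := by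
  unfold qq
  rw [if_neg (by omega), if_neg (by omega), if_neg (by omega),
    show (2 * i + 2) / 2 - 1 = i by omega]

theorem q_zero : qq m s k a b 0 = (-(2 * (m : ℝ) + 2), 0) := if_pos rfl

theorem q_end : qq m s k a b (2 * k + 2) = ((s : ℝ) - (2 * m + 2), 0) := by
  unfold qq
  rw [if_neg (by omega), if_pos rfl]

structure Sp (m x0 x1 α β a b : ℝ) (T : ℝ × ℝ) : Prop where
  h0 : 0 ≤ x0
  h1 : x1 ≤ 1
  t0 : x0 < T.1
  t1 : T.1 < x1
  pa : 0 < α
  pb : 0 < β
  ea : α * (x0 + 2 * a) = 1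
  eb : β * (2 * b - x1) = 1
  y0 : T.2 = 1 + α * (T.1 - x0)
  y1 : T.2 = 1 - β * (T.1 - x1)
  a1 : 1 ≤ a
  a2 : a ≤ m
  b1 : 1 ≤ b
  b2 : b ≤ m

theorem OK.sp (h : OK m s k a b) {i : ℕ} (hi : i < k) :
    Sp m (xx k i) (xx k (i + 1)) (al k a i) (be k b i) (a i) (b i) (tip k a b i) := by
  have h0 : 0 ≤ xx k i := xx0 (k := k) ▸ xx_mono (Nat.zero_le _)
  have h1 : xx k (i + 1) ≤ 1 := xxk h.hk ▸ xx_mono hi
  have hk : (0 : ℝ) < k := by exact_mod_cast h.hk
  have h2 : 0 < xx k (i + 1) - xx k i := by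
    unfold xx; rw [← sub_div]; push_cast; exact div_pos (by linarith) hk
  have a1 : (1 : ℝ) ≤ a i := by exact_mod_cast (h.ha i).1
  have a2 : (a i : ℝ) ≤ m := by exact_mod_cast (h.ha i).2
  have b1 : (1 : ℝ) ≤ b i := by exact_mod_cast (h.hb i).1
  have b2 : (b i : ℝ) ≤ m := by exact_mod_cast (h.hb i).2
  have da : 0 < xx k i + 2 * a i := by linarith
  have db : 0 < 2 * b i - xx k (i + 1) := by linarith
  have pa : 0 < al k a i := one_div_pos.2 da
  have pb : 0 < be k b i := one_div_pos.2 db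
  have pab : 0 < al k a i + be k b i := by linarith
  refine ⟨h0, h1, ?_, ?_, pa, pb, one_div_mul_cancel da.ne', one_div_mul_cancel db.ne', ?_, ?_,
    a1, a2, b1, b2⟩
  · unfold tip
    have : 0 < (xx k (i + 1) - xx k i) * be k b i / (al k a i + be k b i) := by positivity
    simp only; linarith
  · unfold tip
    have : (xx k (i + 1) - xx k i) * be k b i / (al k a i + be k b i) <
        xx k (i + 1) - xx k i := by
      rw [div_lt_iff₀ pab]; nlinarith
    simp only; linarith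
  · unfold tip
    simp only; field_simp; ring
  · unfold tip
    simp only; field_simp; ring

theorem idx (j k : ℕ) (hj : j < 2 * k + 2) : j = 0 ∨ j = 2 * k + 1 ∨
    (∃ i < k, j = 2 * i + 1) ∨ ∃ i < k, j = 2 * i + 2 := by
  rcases Nat.even_or_odd' j with ⟨c, rfl | rfl⟩
  · rcases c with _ | c
    · exact Or.inl rfl
    · exact Or.inr (Or.inr (Or.inr ⟨c, by omega, by omega⟩))
  · by_cases h : c = k
    · exact Or.inr (Or.inl (by omega))
    · exact Or.inr (Or.inr (Or.inl ⟨c, by omega, rfl⟩))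

theorem OK.cs (h : OK m s k a b) : 4 * (m : ℝ) + 4 ≤ s := by exact_mod_cast h.hs

theorem OK.qinc (h : OK m s k a b) : ∀ j < 2 * k + 2,
    (qq m s k a b j).1 < (qq m s k a b (j + 1)).1 := by
  intro j hj
  have hm : (0 : ℝ) ≤ m := Nat.cast_nonneg _
  have hs := h.cs
  rcases idx j k hj with rfl | rfl | ⟨i, hi, rfl⟩ | ⟨i, hi, rfl⟩
  · rw [q_zero, show 0 + 1 = 2 * 0 + 1 by rfl, q_odd, xx0]; simp only; linarith
  · rw [q_odd, q_end, xxk h.hk]; simp only; linarith
  · rw [q_odd, q_tip hi]; exact (h.sp hi).t0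
  · rw [q_tip hi, show 2 * i + 2 + 1 = 2 * (i + 1) + 1 by ring, q_odd]; exact (h.sp hi).t1

theorem on_line {A B : ℝ × ℝ} {x y : ℝ} (c d : ℝ) (h : (x, y) ∈ segment ℝ A B)
    (h1 : A.2 = c + d * A.1) (h2 : B.2 = c + d * B.1) : y = c + d * x := by
  obtain ⟨u, w, _, _, huw, e⟩ := h
  obtain rfl : u = 1 - w := by linarith
  have e1 := congrArg Prod.fst e
  have e2 := congrArg Prod.snd e
  simp only [Prod.fst_add, Prod.snd_add, Prod.smul_fst, Prod.smul_snd, smul_eq_mul] at e1 e2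
  rw [← e1, ← e2, h1, h2]; ring

theorem OK.gcase (h : OK m s k a b) {G : ℝ → ℝ} (hG : Ch (qq m s k a b) (2 * k + 2) G) {x : ℝ}
    (h1 : -(2 * (m : ℝ) + 2) ≤ x) (h2 : x ≤ s - (2 * m + 2)) :
    (x ≤ 0 ∧ (2 * m + 2) * G x = 2 * m + 2 + x) ∨
    (1 ≤ x ∧ (s - (2 * m + 2) - 1) * G x = s - (2 * m + 2) - x) ∨
    ∃ i < k, (xx k i ≤ x ∧ x ≤ (tip k a b i).1 ∧ G x = 1 + al k a i * (x - xx k i)) ∨
      ((tip k a b i).1 ≤ x ∧ x ≤ xx k (i + 1) ∧ G x = 1 - be k b i * (x - xx k (i + 1))) := by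
  have hm : (0 : ℝ) ≤ m := Nat.cast_nonneg _
  have hs := h.cs
  obtain ⟨j, hj, a1, a2, a3⟩ := hG.loc (by omega) (x := x) (by rw [q_zero]; exact h1)
    (by rw [q_end]; exact h2)
  rcases idx j k hj with rfl | rfl | ⟨i, hi, rfl⟩ | ⟨i, hi, rfl⟩
  · rw [show 0 + 1 = 2 * 0 + 1 by rfl, q_odd, xx0] at a2 a3
    rw [q_zero] at a3
    have hp : (2 * (m : ℝ) + 2) ≠ 0 := by positivity
    refine Or.inl ⟨a2, ?_⟩
    rw [on_line 1 (1 / (2 * m + 2)) a3 (by simp only; field_simp; ring) (by simp)]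
    field_simp
  · rw [q_odd, xxk h.hk] at a1 a3
    rw [q_end] at a3
    have hp : (s - (2 * (m : ℝ) + 2) - 1) ≠ 0 := by linarith
    refine Or.inr (Or.inl ⟨a1, ?_⟩)
    generalize (s - (2 * (m : ℝ) + 2)) = B at a3 hp ⊢
    rw [on_line (B / (B - 1)) (-1 / (B - 1)) a3
      (by simp only; field_simp; ring) (by simp only; field_simp; ring)]
    field_simp
    ring
  · rw [q_odd] at a1 a3
    rw [q_tip hi] at a2 a3
    refine Or.inr (Or.inr ⟨i, hi, Or.inl ⟨a1, a2, ?_⟩⟩)
    rw [on_line (1 - al k a i * xx k i) (al k a i) a3 (by simp only; ring)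
      (by rw [(h.sp hi).y0]; ring)]
    ring
  · rw [q_tip hi] at a1 a3
    rw [show 2 * i + 2 + 1 = 2 * (i + 1) + 1 by ring, q_odd] at a2 a3
    refine Or.inr (Or.inr ⟨i, hi, Or.inr ⟨a1, a2, ?_⟩⟩)
    rw [on_line (1 + be k b i * xx k (i + 1)) (-be k b i) a3 (by rw [(h.sp hi).y1]; ring)
      (by simp only; ring)]
    ring

theorem p_y (j : ℕ) : (pp m s j).2 = 0 ∨ (pp m s j).2 = -1 := by
  unfold pp; simp only; split_ifs <;> simp

theorem f_le (h : OK m s k a b) {F : ℝ → ℝ} (hF : Ch (pp m s) s F) {x : ℝ}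
    (h1 : -(2 * (m : ℝ) + 2) ≤ x) (h2 : x ≤ s - (2 * m + 2)) : F x ≤ 0 := by
  have := h.hs
  obtain ⟨j, _, _, _, u, w, hu, hw, _, e⟩ := hF.loc (by omega) (x := x) (by simpa [pp] using h1) h2
  have e2 := congrArg Prod.snd e
  simp only [Prod.snd_add, Prod.smul_snd, smul_eq_mul] at e2
  rw [← e2]
  rcases p_y (m := m) (s := s) j with c | c <;> rcases p_y (m := m) (s := s) (j + 1) with d | d <;>
    rw [c, d] <;> linarith

theorem OK.mp (h : OK m s k a b) : ∃ F G, MP (pp m s) (qq m s k a b) s (2 * k + 2) F G := by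
  obtain ⟨F, hF⟩ := exists_ch (pp m s) s (fun i _ => by simp [pp])
  obtain ⟨G, hG⟩ := exists_ch _ _ h.qinc
  have hm : (0 : ℝ) ≤ m := Nat.cast_nonneg _
  have hs := h.cs
  have hs' := h.hs
  have p0 : pp m s 0 = (-(2 * (m : ℝ) + 2), 0) := by simp [pp]
  have ps : pp m s s = ((s : ℝ) - (2 * m + 2), 0) := by simp [pp]
  refine ⟨F, G, hF, hG, by omega, by omega, by rw [p0, q_zero], by rw [ps, q_end], ?_, ?_, ?_,
    ?_, ?_⟩
  · intro x x1 x2
    rw [p0] at x1
    rw [ps] at x2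
    simp only at x1 x2
    refine (f_le h hF x1.le x2.le).trans_lt ?_
    rcases h.gcase hG x1.le x2.le with ⟨_, c⟩ | ⟨_, c⟩ | ⟨i, hi, ⟨c, _, d⟩ | ⟨_, c, d⟩⟩
    · by_contra hc; push Not at hc; nlinarith
    · by_contra hc; push Not at hc; nlinarith
    · have := (h.sp hi).pa; rw [d]; nlinarith
    · have := (h.sp hi).pb; rw [d]; nlinarith
  · intro i hi
    apply ncol
    unfold pp
    simp only
    push_cast
    split_ifs <;> first | omega | (intro e; linarith)
  · intro j hj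
    apply ncol
    rcases idx j k (by omega) with rfl | rfl | ⟨i, hi, rfl⟩ | ⟨i, hi, rfl⟩
    · have sp := h.sp h.hk
      rw [q_zero, show 0 + 1 = 2 * 0 + 1 by rfl, q_odd, show 0 + 2 = 2 * 0 + 2 by rfl, q_tip h.hk,
        sp.y0]
      have := sp.t0; have e := sp.ea; have := sp.a2; have := sp.pa
      rw [xx0] at *
      simp only
      intro e2
      have : (tip k a b 0).1 * (al k a 0 * (2 * m + 2) - 1) = 0 := by linarith
      have : 0 < al k a 0 * (2 * m + 2) - 1 := by nlinarith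
      nlinarith
    · omega
    · have sp := h.sp hi
      rw [q_odd, q_tip hi, show 2 * i + 1 + 2 = 2 * (i + 1) + 1 by ring, q_odd]
      have := sp.t0; have := sp.t1; have := sp.pa; have := sp.y0
      simp only
      intro e2
      have : 0 < al k a i * ((tip k a b i).1 - xx k i) := by apply mul_pos <;> linarith
      nlinarith
    · have sp := h.sp hi
      rw [q_tip hi, show 2 * i + 2 + 1 = 2 * (i + 1) + 1 by ring, q_odd]
      have := sp.t1; have := sp.pb; have y1 := sp.y1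
      have l1 : 0 < be k b i * (xx k (i + 1) - (tip k a b i).1) := by apply mul_pos <;> linarith
      by_cases c : i + 1 < k
      · have sp' := h.sp c
        rw [show 2 * i + 2 + 2 = 2 * (i + 1) + 2 by ring, q_tip c]
        have := sp'.t0; have := sp'.pa; have y0 := sp'.y0
        have l2 : 0 < al k a (i + 1) * ((tip k a b (i + 1)).1 - xx k (i + 1)) := by
          apply mul_pos <;> linarith
        simp only
        intro e2
        nlinarith
      · rw [show 2 * i + 2 + 2 = 2 * k + 2 by omega, q_end]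
        have e := sp.eb; have := sp.b2
        have e1 : xx k (i + 1) = 1 := by rw [show i + 1 = k by omega, xxk h.hk]
        have t1 := sp.t1
        rw [e1] at y1 e t1 ⊢
        simp only
        rw [y1]
        intro e2
        have : (1 - (tip k a b i).1) * (be k b i * (s - (2 * m + 2) - 1) - 1) = 0 := by linarith
        have : 0 < be k b i * (s - (2 * m + 2) - 1) - 1 := by nlinarith
        nlinarith
  · apply ncol
    have q1 : qq m s k a b 1 = (xx k 0, 1) := q_odd (i := 0)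
    rw [p0, q1, xx0]
    unfold pp
    rw [if_pos ⟨by omega, by omega⟩]
    simp only
    push_cast
    intro e; linarith
  · apply ncol
    rw [ps, show 2 * k + 2 - 1 = 2 * k + 1 by omega, q_odd, xxk h.hk]
    have e1 : (pp m s (s - 1)).1 = s - 1 - (2 * m + 2) := by
      unfold pp; simp only; rw [Nat.cast_sub (by omega)]; simp
    rw [e1]
    rcases p_y (m := m) (s := s) (s - 1) with c | c <;> rw [c] <;> simp only <;> intro e <;>
      linarith

theorem OK.cone (h : OK m s k a b) {F G : ℝ → ℝ}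
    (hp : MP (pp m s) (qq m s k a b) s (2 * k + 2) F G) {n : ℕ} (hn : n = s + (2 * k + 2))
    {i : ℕ} (hi : i < k) {z : ℝ × ℝ} (z0 : 0 ≤ z.2) (z1 : z.2 ≤ 1 + al k a i * (z.1 - xx k i))
    (z2 : z.2 ≤ 1 - be k b i * (z.1 - xx k (i + 1))) :
    z ∈ region (poly (pp m s) (qq m s k a b) s (2 * k + 2) n) := by
  have sp := h.sp hi
  obtain ⟨h0, h1, t0, t1, pa, pb, ea, eb, y0, y1, a1, a2, b1, b2⟩ := sp
  have hs := h.cs
  have l1 : -(2 * (a i : ℝ)) ≤ z.1 := by
    by_contra hc; push Not at hc; nlinarith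
  have l2 : z.1 ≤ 2 * (b i : ℝ) := by
    by_contra hc; push Not at hc; nlinarith
  have l3 : -(2 * (m : ℝ) + 2) ≤ z.1 := by linarith
  have l4 : z.1 ≤ s - (2 * m + 2) := by linarith
  refine hp.inside hn (by simpa [pp] using l3) l4 ((f_le h hp.cF l3 l4).trans z0) ?_
  have sep : ∀ j < k, j ≠ i → xx k j ≤ z.1 → z.1 ≤ xx k (j + 1) → z.2 ≤ 1 := by
    intro j _ hji c d
    rcases lt_or_gt_of_ne hji with e | e
    · have := xx_mono (k := k) (i := j + 1) (j := i) e; nlinarith
    · have := xx_mono (k := k) (i := i + 1) (j := j) e; nlinarith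
  rcases h.gcase hp.cG l3 l4 with ⟨c, d⟩ | ⟨c, d⟩ | ⟨j, hj, ⟨c, c', d⟩ | ⟨c', c, d⟩⟩
  · have e1 : 1 ≤ al k a i * (2 * m + 2) := by nlinarith
    have e2 : z.2 ≤ 1 + al k a i * z.1 := by nlinarith
    have e3 : (2 * m + 2) * z.2 ≤ (2 * m + 2) * (1 + al k a i * z.1) :=
      mul_le_mul_of_nonneg_left e2 (by linarith)
    refine le_of_mul_le_mul_left (a := 2 * (m : ℝ) + 2) ?_ (by linarith)
    nlinarith
  · have e1 : 1 ≤ be k b i * (s - (2 * m + 2) - 1) := by nlinarith
    have e2 : z.2 ≤ 1 - be k b i * (z.1 - 1) := by nlinarith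
    have e3 : (s - (2 * m + 2) - 1) * z.2 ≤ (s - (2 * m + 2) - 1) * (1 - be k b i * (z.1 - 1)) :=
      mul_le_mul_of_nonneg_left e2 (by linarith)
    refine le_of_mul_le_mul_left (a := s - (2 * (m : ℝ) + 2) - 1) ?_ (by linarith)
    nlinarith
  · rw [d]
    by_cases e : j = i
    · subst e; exact z1
    · have := sep j hj e c (c'.trans (h.sp hj).t1.le)
      have := (h.sp hj).pa
      nlinarith
  · rw [d]
    by_cases e : j = i
    · subst e; exact z2
    · have := sep j hj e ((h.sp hj).t0.le.trans c') c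
      have := (h.sp hj).pb
      nlinarith

theorem OK.see (h : OK m s k a b) {F G : ℝ → ℝ}
    (hp : MP (pp m s) (qq m s k a b) s (2 * k + 2) F G) {n : ℕ} (hn : n = s + (2 * k + 2))
    {i : ℕ} (hi : i < k) {x : ℝ} (hx : x ≤ -1 ∨ 2 ≤ x) :
    segment ℝ (tip k a b i) (x, 0) ⊆ region (poly (pp m s) (qq m s k a b) s (2 * k + 2) n) ↔
      (-(2 * (a i : ℝ)) ≤ x ∧ x ≤ 2 * b i) := by
  obtain ⟨h0, h1, t0, t1, pa, pb, ea, eb, y0, y1, a1, a2, b1, b2⟩ := h.sp hi
  have hs := h.cs
  have out : ∀ j ≤ k, ∀ y : ℝ, 1 < y →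
      (xx k j, y) ∉ region (poly (pp m s) (qq m s k a b) s (2 * k + 2) n) := by
    intro j hj y hy
    have c0 : 0 ≤ xx k j := xx0 (k := k) ▸ xx_mono (Nat.zero_le _)
    have c1 : xx k j ≤ 1 := xxk h.hk ▸ xx_mono hj
    refine hp.outside hn (by simp only [pp]; push_cast; linarith) (by simp only [pp]; linarith) ?_
    have := hp.cG.vert (by omega) (i := 2 * j + 1) (by omega)
    rw [q_odd] at this
    simp only at this ⊢
    linarith
  constructor
  · intro hsub
    constructor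
    · by_contra hc
      push Not at hc
      have hd : 0 < (tip k a b i).1 - x := by linarith
      refine out i hi.le (0 + ((tip k a b i).2 - 0) / ((tip k a b i).1 - x) * (xx k i - x)) ?_
        (hsub ?_)
      · rw [zero_add, sub_zero, div_mul_eq_mul_div, lt_div_iff₀ hd, y0]
        have : 0 < ((tip k a b i).1 - xx k i) * (al k a i * (xx k i - x) - 1) := by
          apply mul_pos <;> nlinarith
        nlinarith
      · rw [segment_symm, seg_iff _ _ _ (by simp only; linarith)]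
        exact ⟨by simp only; linarith, t0.le, rfl⟩
    · by_contra hc
      push Not at hc
      have hd : 0 < x - (tip k a b i).1 := by linarith
      refine out (i + 1) hi ((tip k a b i).2 + (0 - (tip k a b i).2) / (x - (tip k a b i).1) *
        (xx k (i + 1) - (tip k a b i).1)) ?_ (hsub ?_)
      · have e : (tip k a b i).2 + (0 - (tip k a b i).2) / (x - (tip k a b i).1) *
            (xx k (i + 1) - (tip k a b i).1) =
            (tip k a b i).2 * (x - xx k (i + 1)) / (x - (tip k a b i).1) := by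
          field_simp; ring
        rw [e, lt_div_iff₀ hd, y1]
        have : 0 < (xx k (i + 1) - (tip k a b i).1) * (be k b i * (x - xx k (i + 1)) - 1) := by
          apply mul_pos <;> nlinarith
        nlinarith
      · rw [seg_iff _ _ _ (by simp only; linarith)]
        exact ⟨t1.le, by simp only; linarith, rfl⟩
  · rintro ⟨c1, c2⟩ z ⟨u, w, hu, hw, huw, rfl⟩
    obtain rfl : u = 1 - w := by linarith
    have k0 : 0 ≤ (tip k a b i).2 := by rw [y0]; nlinarith
    have k1 : 0 ≤ 1 + al k a i * (x - xx k i) := by nlinarith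
    have k2 : 0 ≤ 1 - be k b i * (x - xx k (i + 1)) := by nlinarith
    apply h.cone hp hn hi <;>
      simp only [Prod.fst_add, Prod.snd_add, Prod.smul_fst, Prod.smul_snd, smul_eq_mul]
    · nlinarith
    · have := mul_nonneg hw k1
      rw [y0]; nlinarith
    · have := mul_nonneg hw k2
      rw [y1]; nlinarith

end Pool.Agent.H.MP_af711c_co
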