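import Pool.Agent.H.MP_af711c_co.C

set_option autoImplicit false

namespace Pool.Agent.H.MP_af711c_co

open Set

theorem count {n : ℕ} {I E : Type} [Fintype I] [Fintype E] (b : Bool) (v : I → Fin n → ℝ × ℝ)
    (hv : ∀ σ, IsSimple b (v σ)) (e : E → Fin n)
    (hi : ∀ σ τ, (∀ x y, (vis (v σ)).Adj (e x) (e y) ↔ (vis (v τ)).Adj (e x) (e y)) → σ = τ) :
    Fintype.card I ≤ N b n * n ^ Fintype.card E := by
  classical
  let S := {C : Set (SimpleGraph (Fin n)) | ∃ v : Fin n → ℝ × ℝ, IsSimple b v ∧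
    C = {H | Nonempty (H ≃g vis v)}}
  let rep : Set (SimpleGraph (Fin n)) → SimpleGraph (Fin n) := fun C => Classical.epsilon (· ∈ C)
  let cl : I → S := fun σ => ⟨{H | Nonempty (H ≃g vis (v σ))}, v σ, hv σ, rfl⟩
  have h1 : ∀ σ, ∃ φ : Fin n → Fin n, ∀ x y,
      (rep (cl σ).1).Adj (φ x) (φ y) ↔ (vis (v σ)).Adj x y := by
    intro σ
    have : rep (cl σ).1 ∈ (cl σ).1 :=
      Classical.epsilon_spec (p := (· ∈ (cl σ).1)) ⟨vis (v σ), ⟨SimpleGraph.Iso.refl⟩⟩
    obtain ⟨f⟩ := this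
    exact ⟨f.symm, fun x y => f.symm.map_adj_iff⟩
  choose φ hφ using h1
  have h2 : Function.Injective fun σ => (cl σ, fun x => φ σ (e x)) := by
    intro σ τ h
    obtain ⟨a, c⟩ := Prod.ext_iff.1 h
    simp only at a c
    refine hi σ τ fun x y => ?_
    rw [← hφ σ, ← hφ τ, a, congrFun c x, congrFun c y]
  have h3 := Nat.card_le_card_of_injective _ h2
  rw [Nat.card_prod, Nat.card_fun, Nat.card_eq_fintype_card (α := I),
    Nat.card_eq_fintype_card (α := E), Nat.card_eq_fintype_card (α := Fin n),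
    Fintype.card_fin] at h3
  exact h3

theorem main (b : Bool) {m k s n : ℕ} (hm : 0 < m) (hk : 0 < k) (hs : 4 * m + 4 ≤ s)
    (hn : n = s + (2 * k + 2)) : m ^ (2 * k) ≤ N b n * n ^ (k + 2 * m) := by
  let A : (Fin k → Fin m × Fin m) → ℕ → ℕ := fun σ i =>
    if h : i < k then (σ ⟨i, h⟩).1.val + 1 else 1
  let B : (Fin k → Fin m × Fin m) → ℕ → ℕ := fun σ i =>
    if h : i < k then (σ ⟨i, h⟩).2.val + 1 else 1
  have ok : ∀ σ, OK m s k (A σ) (B σ) := fun σ => ⟨hk, hs, fun i => by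
    simp only [A]; split_ifs with h
    · have := (σ ⟨i, h⟩).1.2; omega
    · omega, fun i => by
    simp only [B]; split_ifs with h
    · have := (σ ⟨i, h⟩).2.2; omega
    · omega⟩
  let e : Fin k ⊕ Fin m ⊕ Fin m → Fin n := fun x => match x with
    | .inl i => ⟨n - (2 * i.val + 2), by omega⟩
    | .inr (.inl j) => ⟨2 * m - 2 * j.val, by omega⟩
    | .inr (.inr j) => ⟨2 * m + 4 + 2 * j.val, by have := j.2; omega⟩
  let v : (Fin k → Fin m × Fin m) → Fin n → ℝ × ℝ := fun σ =>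
    poly (pp m s) (qq m s k (A σ) (B σ)) s (2 * k + 2) n
  have key : ∀ σ (i : Fin k) (j : Fin m),
      ((vis (v σ)).Adj (e (.inl i)) (e (.inr (.inl j))) ↔ j ≤ (σ i).1) ∧
      ((vis (v σ)).Adj (e (.inl i)) (e (.inr (.inr j))) ↔ j ≤ (σ i).2) := by
    intro σ i j
    obtain ⟨F, G, hp⟩ := (ok σ).mp
    have hi := i.2
    have hj := j.2
    have v1 : v σ (e (.inl i)) = tip k (A σ) (B σ) i := by
      simp only [v, e, poly]
      rw [hp.W_hi (by omega), ← q_tip (m := m) (s := s) hi]; congr 1; omega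
    have v2 : v σ (e (.inr (.inl j))) = (-(2 * ((j.val : ℝ) + 1)), 0) := by
      simp only [v, e, poly]
      rw [W_lo (by omega), pp, if_neg (by omega), Nat.cast_sub (by omega)]
      push_cast; congr 1; ring
    have v3 : v σ (e (.inr (.inr j))) = (2 * ((j.val : ℝ) + 1), 0) := by
      simp only [v, e, poly]
      rw [W_lo (by omega), pp, if_neg (by omega)]
      push_cast; congr 1; ring
    have hA : (A σ i : ℝ) = (σ i).1.val + 1 := by simp [A]
    have hB : (B σ i : ℝ) = (σ i).2.val + 1 := by simp [B]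
    have j0 : (0 : ℝ) ≤ j.val := Nat.cast_nonneg _
    have a0 : (0 : ℝ) ≤ (σ i).1.val := Nat.cast_nonneg _
    have b0 : (0 : ℝ) ≤ (σ i).2.val := Nat.cast_nonneg _
    constructor
    · change (_ ∧ segment ℝ (v σ _) (v σ _) ⊆ _) ↔ _
      rw [v1, v2, (ok σ).see hp hn hi (Or.inl (by linarith)), hA, hB, Fin.le_def,
        ← Nat.cast_le (α := ℝ)]
      refine ⟨fun h => by linarith [h.2.1], fun h => ⟨fun c => ?_, by linarith, by linarith⟩⟩
      have := congrArg Fin.val c
      simp only [e] at this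
      omega
    · change (_ ∧ segment ℝ (v σ _) (v σ _) ⊆ _) ↔ _
      rw [v1, v3, (ok σ).see hp hn hi (Or.inr (by linarith)), hA, hB, Fin.le_def,
        ← Nat.cast_le (α := ℝ)]
      refine ⟨fun h => by linarith [h.2.2], fun h => ⟨fun c => ?_, by linarith, by linarith⟩⟩
      have := congrArg Fin.val c
      simp only [e] at this
      omega
  have := count b v (fun σ => by
    obtain ⟨F, G, hp⟩ := (ok σ).mp
    exact hp.simple hn b) e (fun σ τ h => by
    funext i
    refine Prod.ext (le_antisymm ?_ ?_) (le_antisymm ?_ ?_)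
    · exact (key τ i _).1.1 ((h (.inl i) (.inr (.inl _))).1 ((key σ i _).1.2 le_rfl))
    · exact (key σ i _).1.1 ((h (.inl i) (.inr (.inl _))).2 ((key τ i _).1.2 le_rfl))
    · exact (key τ i _).2.1 ((h (.inl i) (.inr (.inr _))).1 ((key σ i _).2.2 le_rfl))
    · exact (key σ i _).2.1 ((h (.inl i) (.inr (.inr _))).2 ((key τ i _).2.2 le_rfl)))
  simp only [Fintype.card_pi, Fintype.card_prod, Fintype.card_fin, Finset.prod_const,
    Finset.card_univ, Fintype.card_sum] at this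
  rw [pow_mul, pow_two, two_mul m]
  exact this

theorem final (b : Bool) (n : ℕ) (hn : 40 ^ 8 ≤ n) :
    (n : ℝ) * Real.logb 2 n / 40 ≤ Real.logb 2 (N b n) := by
  obtain ⟨m, hm⟩ : ∃ m, m = n / 20 := ⟨_, rfl⟩
  have h := main b (m := m) (k := 4 * m) (s := n - (2 * (4 * m) + 2)) (n := n) (by omega)
    (by omega) (by omega) (by omega)
  have m0 : (0 : ℝ) < m := by exact_mod_cast (by omega : 0 < m)
  have n0 : (0 : ℝ) < n := by exact_mod_cast (by omega : 0 < n)
  have h1 : (n : ℝ) ≤ 40 * m := by exact_mod_cast (by omega : n ≤ 40 * m)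
  have h2 : ((m : ℝ)) ^ (2 * (4 * m)) ≤ N b n * (n : ℝ) ^ (4 * m + 2 * m) := by exact_mod_cast h
  have N0 : (0 : ℝ) < N b n := by
    by_contra hc
    push Not at hc
    have : (0 : ℝ) < (m : ℝ) ^ (2 * (4 * m)) := by positivity
    have : (0 : ℝ) < (n : ℝ) ^ (4 * m + 2 * m) := by positivity
    nlinarith
  have h3 := Real.logb_le_logb_of_le (b := 2) one_lt_two (by positivity) h2
  rw [Real.logb_mul N0.ne' (by positivity), Real.logb_pow, Real.logb_pow] at h3
  have h4 := Real.logb_le_logb_of_le (b := 2) one_lt_two n0 h1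
  rw [Real.logb_mul (by norm_num) m0.ne'] at h4
  have h5 := Real.logb_le_logb_of_le (b := 2) (x := (40 : ℝ) ^ 8) (y := n) one_lt_two
    (by positivity) (by exact_mod_cast hn)
  rw [Real.logb_pow] at h5
  have h6 : 0 ≤ Real.logb 2 40 := Real.logb_nonneg one_lt_two (by norm_num)
  push_cast at h3 h5
  have h7 : (n : ℝ) * Real.logb 2 n ≤ 40 * m * Real.logb 2 n :=
    mul_le_mul_of_nonneg_right h1 (by linarith)
  nlinarith

end Pool.Agent.H.MP_af711c_co
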